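import Pool.Agent.TH837.KS.Up

/-!
# Approximate pure dynamic programs and the strong exponential time hypothesis

The input of a (min,+) program (a pure dynamic program, a tropical circuit) is a weight of each of
the `N = (2n)^k` clauses on `k` (not necessarily different) of `n` variables. The program computes
functions of the weights, one after the other; each is an input, a constant, or the minimum or the
sum of two functions computed before. The optimum is the least total weight of the clauses which are
falsified by an assignment. If the clauses of a formula have weight infinity and the others weight
one, then it is `n^k` if the formula is satisfiable, and infinity if not.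

Brute force is a (min,+) program for the optimum with about `2^n n^k` instructions. The theorem
says that the exponent is necessary, for large `k`, even for randomised programs with the success
probability `2^(- ε n / 4)`, and for approximations of the optimum within a factor `ρ < 3/2`: if the
programs never return less than the optimum on formulas, and return at most `ρ` times the optimum
with this probability if the formula has exactly one satisfying assignment, then they have more than
`2^((1 - ε) n) N^A` instructions.

Proof: for an assignment `x` let `G x` be the set of the `n^k` clauses which are falsified by `x`.
If the program is good for the formula whose only satisfying assignment is `x`, then it has a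
monomial `p x` which reads exactly the clauses in `G x`, at most `ρ n^k` of them (with multiplicity).
There is a gate at which `p x` is cut into two parts with at most `2 ρ / 3 n^k` clauses each. If the
monomials of `x` and `x'` are cut at the same gate then a part of one and a part of the other form a
monomial of the program; so it contains some `G y`, and this must be `G x` or `G x'`. Therefore
`G x` and `G x'` have at least `(1 - 2 ρ / 3) n^k - 3` clauses in common, that is, `x` and `x'` agree
at `c^(1/k) n` variables, where `c > 0` depends only on `ρ`. If `k` is large then this fixes almost
all variables, so only `2^(ε n / 4)` assignments can be cut at the same gate.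
-/

set_option autoImplicit false

namespace Pool.Agent.Results.MP_0e79d0_lc.ApproximatePureDP

open Pool.Agent.TH837.KS
open Pool.Agent.TH837.SC (Computes)
open scoped ENNReal

theorem result :
    (∀ n k : ℕ,
      Computes (opt : (Pat n k → ℝ≥0∞) → ℝ≥0∞) (2 ^ n * (n ^ k + 1) + (2 * n) ^ k + 2)) ∧
    ∀ ρ ε : ℝ, 1 ≤ ρ → ρ < 3 / 2 → 0 < ε → ε < 1 → ∃ k₀ : ℕ, ∀ k ≥ k₀, ∀ A : ℕ, ∃ M : ℕ,
      ∀ n ≥ M, ∀ (R : Type) [Fintype R] [Nonempty R] (f : R → (Pat n k → ℝ≥0∞) → ℝ≥0∞),
        RandApprox ρ (2 ^ (-(ε / 4 * n))) f → ∀ s : ℕ, (∀ r, Computes (f r) s) →
          (2 : ℝ) ^ ((1 - ε) * n) * ((2 * n) ^ k) ^ A < s :=
  ⟨computes_opt, seth'⟩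

end Pool.Agent.Results.MP_0e79d0_lc.ApproximatePureDP
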