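import Pool.Agent.TH680.RS.Law
import Pool.Agent.TH680.DT.Empty

/-!
# The randomized strong exponential time hypothesis relative to random oracles: the exact density
threshold

The strings `x` are put into the oracle `A` independently, with a probability `q |x|` that depends on
the length only, where `q` is an arbitrary function (`rand q` is the distribution of `A`). Let
`rare q n = 2 ^ n * min (q n) (1 - q n)`, the expected number of the strings of length `n` for which
`A` has the less probable value. Let `Q` be any further oracle.

(1) If the series `∑ rare q n` diverges then, for almost all `A`, relative to `Q ⊕ A` there is one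
parametrized search problem (like the satisfiability of circuits with `n` variables) which is
not decided in randomized time `2 ^ (δ n) poly` with bounded error, for any rational `δ < 1`; and
even its complement has no Arthur-Merlin proofs in time `2 ^ (δ n) poly`.

(2) If the series converges then, for almost all `A`, the oracle `Q ⊕ A` is as good as
`Q ⊕ common q`, where `common q` is the oracle of the more probable values, for all these classes.

(3) So there is a law for all these random oracles: almost surely, the randomized strong exponential
time hypothesis (also the deterministic, the nondeterministic and the Arthur-Merlin one) holds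
relative to `Q ⊕ A` if and only if the series diverges or the hypothesis holds relative to
`Q ⊕ common q`; and if `common q` is in `P` (for instance empty, that is, if `q n ≤ 1 / 2` for all
`n`): if and only if the series diverges or the hypothesis holds relative to `Q ⊕ ∅`.

The proof of (1). For a length `N`, consider `2 ^ n` groups of `k` strings of length `N`; a group is a
witness if all its bits are the less probable ones. One can choose `n ≥ √N` and `k` such that the
expected number `μ` of the witnesses is at most `1 / 2` and at least `min (rare q N) (1 / 4)`. Assume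
that Arthur and Merlin are right for all large `N`, for all oracles in a set of positive
probability. Let `A` be an oracle without witness. For at least `2 / 3` of the coin tapes there is a
certificate, which looks at `T < 2 ^ (n - 2)` strings only. If the change of the group `w` into a
witness gives an oracle for which Arthur and Merlin are right, then for at least one third of the
coin tapes the certificate looks at the group `w`. By double counting, this is the case for at most
`3 T` of the groups `w`. So most of the neighbours of `A` are bad. By the engine `OR.engine2`, this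
is impossible if the series diverges: the expected number of the witnesses on the bad oracles would
be of order `1`, for a suitable interval of lengths, which contradicts the second moment.
-/

set_option autoImplicit false

namespace Pool.Agent.Results.MP_0e79d0_lc.DensityThreshold

open MeasureTheory Pool.Agent.NPC Pool.Agent.H620R2.Gauge Pool.Agent.TH678.SETH
open Pool.Agent.W900.IE (indep)
open Pool.Agent.TH680.SE (InCo SETH NSETH)
open Pool.Agent.TH680.RS (InRand InCoAM RSETH AMSETH)

/-- The distribution of the random oracle: the strings `x` are in the oracle with probability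
`q |x|`, independently. -/
noncomputable def rand (q : ℕ → unitInterval) : Measure Oracle := indep (fun x => q x.length)

/-- The expected number of the strings of length `n` for which the random oracle has the less
probable value. -/
noncomputable def rare (q : ℕ → unitInterval) (n : ℕ) : ℝ := 2 ^ n * min (q n : ℝ) (1 - q n)

/-- The oracle of the more probable values. -/
noncomputable def common (q : ℕ → unitInterval) : Oracle := fun x =>
  decide ((1 / 2 : ℝ) < q x.length)

/-- The empty oracle. -/
def empty : Oracle := fun _ => false

/-- The disjoint union of the oracles `Q` and `A`. -/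
def join (Q A : Oracle) : Oracle
  | [] => false
  | false :: z => Q z
  | true :: z => A z

theorem join_eq : TH680.OD.join = join := by
  funext Q A x
  rcases x with _ | ⟨b, z⟩
  · rfl
  · cases b <;> rfl

theorem rare_eq (q : ℕ → unitInterval) : W900.IE.dev (TH680.DT.pq q) = rare q := by
  funext n
  unfold W900.IE.dev TH680.DT.pq rare
  have h : ∀ v : Fin n → Bool, min (q (List.ofFn v).length : ℝ) (1 - q (List.ofFn v).length) =
      min (q n : ℝ) (1 - q n) := fun v => by rw [List.length_ofFn]
  rw [Finset.sum_congr rfl fun v _ => h v, Finset.sum_const, nsmul_eq_mul, Finset.card_univ]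
  simp

theorem poly_join {E : List Bool → Bool} (hE : Poly E) :
    Poly (fun x : List Bool => decide (x.head? = some true) && E x.tail) :=
  Poly.and (Poly.decide_eq (Poly.head? Poly.id) (NPC.Poly.const _)) (hE.comp (Poly.tail Poly.id))

theorem join_xor (Q : Oracle) {A D : Oracle} {E : List Bool → Bool}
    (h : ∀ x, D x = (A x ^^ E x)) (x : List Bool) :
    join Q D x = (join Q A x ^^ (decide (x.head? = some true) && E x.tail)) := by
  rcases x with _ | ⟨b, z⟩
  · rfl
  · cases b with
    | false => simp [join]
    | true =>
      show D z = _
      rw [h]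
      simp [join]

/-- **The randomized strong exponential time hypothesis relative to random oracles: the exact
density threshold.** -/
theorem result (q : ℕ → unitInterval) (Q : Oracle) :
    (¬ Summable (rare q) → ∀ᵐ A ∂(rand q), ∃ L, IsParN (join Q A) L ∧
      ∀ δ : ℚ, δ < 1 → ¬ InRand δ (join Q A) L ∧ ¬ InCoAM δ (join Q A) L ∧
        ¬ InDet δ (join Q A) L ∧ ¬ InCo δ (join Q A) L) ∧
    (Summable (rare q) → ∀ᵐ A ∂(rand q),
      (∀ L, IsParN (join Q A) L ↔ IsParN (join Q (common q)) L) ∧
      ∀ (δ : ℝ) (L : Set (List Bool)),
        (InRand δ (join Q A) L ↔ InRand δ (join Q (common q)) L) ∧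
        (InCoAM δ (join Q A) L ↔ InCoAM δ (join Q (common q)) L) ∧
        (InDet δ (join Q A) L ↔ InDet δ (join Q (common q)) L) ∧
        (InCo δ (join Q A) L ↔ InCo δ (join Q (common q)) L)) ∧
    (∀ H ∈ [RSETH, AMSETH, SETH, NSETH], ∀ᵐ A ∂(rand q),
      (H (join Q A) ↔ (¬ Summable (rare q) ∨ H (join Q (common q))))) ∧
    (IsP empty {x | common q x = true} → ∀ H ∈ [RSETH, AMSETH, SETH, NSETH], ∀ᵐ A ∂(rand q),
      (H (join Q A) ↔ (¬ Summable (rare q) ∨ H (join Q empty)))) := by
  have h1 : ¬ Summable (rare q) → ∀ᵐ A ∂(rand q), ∃ L, IsParN (join Q A) L ∧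
      ∀ δ : ℚ, δ < 1 → ¬ InRand δ (join Q A) L ∧ ¬ InCoAM δ (join Q A) L ∧
        ¬ InDet δ (join Q A) L ∧ ¬ InCo δ (join Q A) L := by
    intro h
    have h0 := TH680.RS.ae_amseth (q := q) h Q
    rw [join_eq] at h0
    filter_upwards [h0] with A hA
    obtain ⟨L, hL, hA⟩ := hA
    exact ⟨L, hL, fun δ hδ => ⟨fun h2 => hA δ hδ (TH680.RS.inCoAM_of_inRand h2), hA δ hδ,
      fun h2 => hA δ hδ (TH680.RS.inCoAM_of_inCo (TH680.SE.inCo_of_inDet h2)),
      fun h2 => hA δ hδ (TH680.RS.inCoAM_of_inCo h2)⟩⟩
  have h2 : Summable (rare q) → ∀ᵐ A ∂(rand q), Poly (fun x => (A x ^^ common q x)) := by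
    intro h
    rw [← rare_eq] at h
    exact TH680.DT.ae_same h
  have hx : ∀ A : Oracle, ∀ x, common q x = (A x ^^ (A x ^^ common q x)) := fun A x => by
    cases A x <;> cases common q x <;> rfl
  have hsame : ∀ {A D : Oracle} {E : List Bool → Bool}, Poly E → (∀ x, D x = (A x ^^ E x)) →
      ∀ H ∈ [RSETH, AMSETH, SETH, NSETH], (H (join Q A) ↔ H (join Q D)) := by
    intro A D E hE hD H hH
    obtain ⟨h4, h5⟩ := TH680.RS.same_seth (poly_join hE) (join_xor Q hD)
    obtain ⟨h6, h7⟩ := TH680.SE.same_seth (poly_join hE) (join_xor Q hD)
    simp only [List.mem_cons, List.not_mem_nil, or_false] at hH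
    rcases hH with rfl | rfl | rfl | rfl
    · exact h4
    · exact h5
    · exact h6
    · exact h7
  have h3 : ∀ H ∈ [RSETH, AMSETH, SETH, NSETH], ∀ᵐ A ∂(rand q),
      (H (join Q A) ↔ (¬ Summable (rare q) ∨ H (join Q (common q)))) := by
    intro H hH
    by_cases h : Summable (rare q)
    · filter_upwards [h2 h] with A hA
      rw [hsame hA (hx A) H hH]
      simp [h]
    · filter_upwards [h1 h] with A hA
      obtain ⟨L, hL, hA⟩ := hA
      refine ⟨fun _ => Or.inl h, fun _ => ?_⟩
      simp only [List.mem_cons, List.not_mem_nil, or_false] at hH
      rcases hH with rfl | rfl | rfl | rfl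
      · exact fun δ hδ => ⟨L, hL, (hA δ hδ).1⟩
      · exact fun δ hδ => ⟨L, hL, (hA δ hδ).2.1⟩
      · exact fun δ hδ => ⟨L, hL, (hA δ hδ).2.2.1⟩
      · exact fun δ hδ => ⟨L, hL, (hA δ hδ).2.2.2⟩
  refine ⟨h1, fun h => ?_, h3, fun hq H hH => ?_⟩
  · filter_upwards [h2 h] with A hA
    obtain ⟨h4, h5, h6⟩ := TH680.SE.same (poly_join hA) (join_xor Q (hx A))
    obtain ⟨h7, h8⟩ := TH680.RS.same (poly_join hA) (join_xor Q (hx A))
    exact ⟨h4, fun δ L => ⟨h7 δ L, h8 δ L, h5 δ L, h6 δ L⟩⟩
  · have hc : Poly (common q) := by
      obtain ⟨V, hV, hL⟩ := hq
      have h3 := TH680.DT.poly_of_isFP_empty hV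
      refine (Poly.decide_eq h3 (NPC.Poly.const [true])).congr fun x => ?_
      have h4 := hL x
      rw [Set.mem_ofPred_eq] at h4
      rw [Bool.eq_iff_iff, h4, decide_eq_true_eq]
    have he : ∀ x, empty x = (common q x ^^ common q x) := fun x => by
      unfold empty
      cases common q x <;> rfl
    have h4 := hsame hc he H hH
    filter_upwards [h3 H hH] with A hA
    rw [hA, h4]

end Pool.Agent.Results.MP_0e79d0_lc.DensityThreshold
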