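import Pool.Agent.TH658.Xr.Main
import Pool.Agent.TH658.Xr.Brute

set_option autoImplicit false

/-!
# Exhaustive search is optimal among sign-equivariant programs of linear algebra for k-SAT

The group `Γ = (Z/2)^n` of sign changes (negations of variables) acts on the `k`-CNF formulas with
`n` variables. A program is a sequence of gates. The value of a gate is an arbitrary function of
the isomorphism class of a vector space of dimension `r` (over some field of characteristic not
two, which may depend on the gate) with endomorphisms and sesquilinear forms, on which the sign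
changes in a subgroup `H` of `Γ` act by a linear representation (`ClassGate`, cost `r^2 [Γ : H]`),
or an arbitrary function of the traces of the products of `r × r` matrices on which each sign
change in `H` acts by some conjugation (`TraceGate`, cost `r^4 [Γ : H]`). The entries of the
matrices are linear combinations of arbitrary functions of the clauses on at most `(1 - ε) n`
variables and of arbitrary functions of the value of an earlier gate at the formula with some
variables negated. A gate thus stands for the `[Γ : H]` gates which one gets from it by sign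
changes; the cost is the number of the entries of their matrices.

(1) For `k` and `n` large enough (depending on `ε`, `η`) there are two distributions on `k`-CNFs
with `C n 2^(k-1)` clauses, one on satisfiable formulas and one on formulas of which every
assignment falsifies more than the fraction `(1 - η) / 2^k` of the clauses, such that the
distributions of the value of a program of cost `S` differ by at most `S / 2^((1 - ε) n)`.
(2) So randomized programs which are correct with probability `2/3` have expected cost at least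
`2^((1 - ε) n) / 3`.
(3) Exhaustive search is a program of cost `2^n + 1`.
-/

namespace Pool.Agent.Results.MP_0e79d0_lc.EquivariantPrograms

open Pool.Agent.TH658.Xr

/-- Each assignment falsifies more than the fraction `(1 - η) / 2^k` of the clauses. -/
def Far {n k : ℕ} (η : ℝ) (G : CNF n k) : Prop :=
  ∀ x : Fin n → ZMod 2, (1 - η) * size G < 2 ^ k * falsified G x

/-- The sum over the gates of the square (for class gates; for trace gates the fourth power) of the
dimension, times the index of the group. -/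
noncomputable def cost {n s : ℕ} (H : Fin s → AddSubgroup (Fin n → ZMod 2)) (r p : Fin s → ℕ) :
    ℕ := ∑ j, r j ^ p j * (H j).index

/-- The values of small programs have nearly the same distribution on the families `F`, `G`. -/
def Fooled {n k : ℕ} (ε : ℝ) {Ω : Type} (F G : Ω → CNF n k) : Prop :=
  ∀ (d s : ℕ) (V : Type) (v : Fin s → CNF n k → V) (H : Fin s → AddSubgroup (Fin n → ZMod 2))
    (r p : Fin s → ℕ), (d : ℝ) ≤ (1 - ε) * n → IsProgram d v H r p →
    ∀ (j₀ : Fin s) (T : Set V),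
    |(Nat.card {ω // v j₀ (F ω) ∈ T} : ℝ) - Nat.card {ω // v j₀ (G ω) ∈ T}| *
      (2 : ℝ) ^ ((1 - ε) * n) ≤ cost H r p * Nat.card Ω

/-- `C` is large compared to `1 / η`, and `k`, `n` are large compared to `C` and `1 / ε`. -/
def Params (ε η : ℝ) (C k n : ℕ) : Prop :=
  0 < ε ∧ ε ≤ 1 ∧ 0 < η ∧ η ≤ 1 ∧ 4 / η ^ 2 ≤ C ∧ 1024 * C * (C + 2) / ε ^ 3 ≤ k ∧
    1024 * C / ε ^ 2 ≤ n

/-- (1) Average case. -/
def AverageCase : Prop :=
  ∀ (ε η : ℝ) (C k n : ℕ), Params ε η C k n →
    ∃ (Ω : Type) (_ : Fintype Ω) (_ : Nonempty Ω) (F G : Ω → CNF n k),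
      (∀ ω, Satisfiable (F ω) ∧ Far η (G ω) ∧ size (F ω) = C * n * 2 ^ (k - 1) ∧
        size (G ω) = C * n * 2 ^ (k - 1)) ∧ Fooled ε F G

/-- (2) Randomized programs: `R` is the set of the outcomes of the coin tosses. -/
def Randomized : Prop :=
  ∀ (ε η : ℝ) (C k n : ℕ), Params ε η C k n →
    ∀ (R : Type) [Fintype R] (d : ℕ) (V : Type) (s : R → ℕ)
      (v : (ρ : R) → Fin (s ρ) → CNF n k → V)
      (H : (ρ : R) → Fin (s ρ) → AddSubgroup (Fin n → ZMod 2)) (r p : (ρ : R) → Fin (s ρ) → ℕ)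
      (j₀ : (ρ : R) → Fin (s ρ)) (T : Set V), (d : ℝ) ≤ (1 - ε) * n →
      (∀ ρ, IsProgram d (v ρ) (H ρ) (r ρ) (p ρ)) →
      (∀ F : CNF n k, Satisfiable F → size F = C * n * 2 ^ (k - 1) →
        2 / 3 * (Nat.card R : ℝ) ≤ Nat.card {ρ // v ρ (j₀ ρ) F ∈ T}) →
      (∀ G : CNF n k, Far η G → size G = C * n * 2 ^ (k - 1) →
        (Nat.card {ρ // v ρ (j₀ ρ) G ∈ T} : ℝ) ≤ 1 / 3 * Nat.card R) →
      1 / 3 * (2 : ℝ) ^ ((1 - ε) * n) * Nat.card R ≤ ∑ ρ, (cost (H ρ) (r ρ) (p ρ) : ℝ)

/-- (3) Exhaustive search. -/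
def Exhaustive : Prop :=
  ∀ n k : ℕ, ∃ (v : Fin 2 → CNF n k → Prop) (H : Fin 2 → AddSubgroup (Fin n → ZMod 2))
    (r p : Fin 2 → ℕ), IsProgram k v H r p ∧ (∀ F, v 1 F ↔ Satisfiable F) ∧
    cost H r p = 2 ^ n + 1

theorem average : AverageCase := by
  rintro ε η C k n ⟨hε, hε1, hη, hη1, hC, hk, hn⟩
  obtain ⟨Ω, i1, i2, F, G, h1, h2⟩ := hard_pair hε hε1 hη hη1 hC hk hn
  exact ⟨Ω, i1, i2, F, G, fun ω => ⟨(h1 ω).1, (h1 ω).2.2.2, (h1 ω).2.1, (h1 ω).2.2.1⟩, h2⟩

/-- double counting -/
theorem swap {R Ω : Type} [Fintype R] [Fintype Ω] (P : R → Ω → Prop) :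
    ∑ ρ, (Nat.card {ω // P ρ ω} : ℝ) = ∑ ω, (Nat.card {ρ // P ρ ω} : ℝ) := by
  classical
  have h1 : ∀ ρ, (Nat.card {ω // P ρ ω} : ℝ) = ∑ ω, if P ρ ω then 1 else 0 := by
    intro ρ
    rw [Nat.card_eq_fintype_card, Fintype.card_subtype, Finset.card_filter]
    push_cast
    rfl
  have h2 : ∀ ω, (Nat.card {ρ // P ρ ω} : ℝ) = ∑ ρ, if P ρ ω then 1 else 0 := by
    intro ω
    rw [Nat.card_eq_fintype_card, Fintype.card_subtype, Finset.card_filter]
    push_cast
    rfl
  rw [Finset.sum_congr rfl fun ρ _ => h1 ρ, Finset.sum_congr rfl fun ω _ => h2 ω,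
    Finset.sum_comm]

theorem randomized : Randomized := by
  intro ε η C k n hp R _ d V s v H r p j₀ T hd hprog hF hG
  obtain ⟨Ω, i1, i2, F, G, h1, h2⟩ := average ε η C k n hp
  set P : ℝ := (2 : ℝ) ^ ((1 - ε) * n) with hP
  have hP0 : 0 < P := Real.rpow_pos_of_pos (by norm_num) _
  have hΩ : (0 : ℝ) < Nat.card Ω := by
    rw [Nat.card_eq_fintype_card]
    exact_mod_cast Fintype.card_pos
  have h3 : ∀ ρ, ((Nat.card {ω // v ρ (j₀ ρ) (F ω) ∈ T} : ℝ) -
      Nat.card {ω // v ρ (j₀ ρ) (G ω) ∈ T}) * P ≤ cost (H ρ) (r ρ) (p ρ) * Nat.card Ω :=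
    fun ρ => (mul_le_mul_of_nonneg_right (le_abs_self _) hP0.le).trans
      (h2 d (s ρ) V (v ρ) (H ρ) (r ρ) (p ρ) hd (hprog ρ) (j₀ ρ) T)
  have h4 := Finset.sum_le_sum fun (ρ : R) (_ : ρ ∈ Finset.univ) => h3 ρ
  rw [← Finset.sum_mul, ← Finset.sum_mul, Finset.sum_sub_distrib,
    swap fun ρ ω => v ρ (j₀ ρ) (F ω) ∈ T, swap fun ρ ω => v ρ (j₀ ρ) (G ω) ∈ T] at h4
  have h5 : (Nat.card Ω : ℝ) * (2 / 3 * Nat.card R) ≤
      ∑ ω, (Nat.card {ρ // v ρ (j₀ ρ) (F ω) ∈ T} : ℝ) := by
    rw [Nat.card_eq_fintype_card (α := Ω), ← nsmul_eq_mul, ← Finset.card_univ,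
      ← Finset.sum_const]
    exact Finset.sum_le_sum fun ω _ => hF (F ω) (h1 ω).1 (h1 ω).2.2.1
  have h6 : ∑ ω, (Nat.card {ρ // v ρ (j₀ ρ) (G ω) ∈ T} : ℝ) ≤
      (Nat.card Ω : ℝ) * (1 / 3 * Nat.card R) := by
    rw [Nat.card_eq_fintype_card (α := Ω), ← nsmul_eq_mul, ← Finset.card_univ,
      ← Finset.sum_const]
    exact Finset.sum_le_sum fun ω _ => hG (G ω) (h1 ω).2.1 (h1 ω).2.2.2
  have h7 : (Nat.card Ω : ℝ) * (1 / 3 * Nat.card R) * P ≤
      (∑ ρ, (cost (H ρ) (r ρ) (p ρ) : ℝ)) * Nat.card Ω := by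
    refine le_trans (mul_le_mul_of_nonneg_right ?_ hP0.le) h4
    linarith
  refine le_of_mul_le_mul_right ?_ hΩ
  refine le_trans (le_of_eq ?_) h7
  ring

theorem exhaustive_search : Exhaustive := by
  intro n k
  obtain ⟨v, H, h1, h2, h3⟩ := exhaustive n k
  exact ⟨v, H, _, _, h1, h2, h3⟩

/-- The two lower bounds and the matching program. -/
theorem result : AverageCase ∧ Randomized ∧ Exhaustive :=
  ⟨average, randomized, exhaustive_search⟩

end Pool.Agent.Results.MP_0e79d0_lc.EquivariantPrograms
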