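import Pool.Agent.TH689.RXFinal
import Pool.Agent.TH689.RXUpper

/-!
# Randomized convex programs with two-sided error need exhaustive search for satisfiability

The definitions used in the statement:

* `Asg n`, `Clause n`, `FalseAt C x` (`Pool/Agent/H538R2/SBDefs.lean`): the assignments of `n`
  Boolean variables, the clauses (finite sets of literals), and the relation that `C` is false
  at `x`. A CNF formula is a finite set of clauses.
* `LX.falsified F x` (`Pool/Agent/TH689/LXDefs.lean`): the number of clauses of `F` which are false
  at the assignment `x`.
* `Scheme n k s r D` (`Pool/Agent/TH689/RXDefs.lean`): the schemes of mixed-integer convex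
  programming relaxations for the formulas with `n` variables, with `k` binary variables, `s`
  convex constraints of dimension `D` which are common to all formulas and `r` such constraints for
  every clause. A constraint says that the value of an affine map to `ℝ ^ D` lies in an arbitrary
  convex set. There are any number of real variables and linear equations. Every assignment has a
  vector, about which nothing is assumed.
* `P.CorrectAt x` (same file): the vector of `x` satisfies the common constraints, the constraints
  of the clauses which are true at `x`, and its binary variables are `0` or `1`.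
* `P.Refutes F δ` (same file): the relaxation `P` claims that `F` is not satisfiable, with an
  error `δ`.
* `P.correctRate` (same file): the fraction of the assignments at which `P` is correct.
* `P.refutedRate F δ` (same file): the fraction of the formulas of the list `F` which are refuted
  with the error `δ`.
-/

set_option autoImplicit false

namespace Pool.Agent.Results.MP_0e79d0_lc.RandomizedConvexRelaxations

open Pool.Agent.H538R2.SB Pool.Agent.TH689 Pool.Agent.TH689.RX

/-- Let `ε > 0`. There is a `c ≥ 1` such that for all `n ≥ c` and all `m` with `n ^ c ≤ m` and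
`m ^ c ≤ 2 ^ n` there is a list `F` of formulas with at most `m` clauses of width at most `log₂ m`,
all of which are far from satisfiable (every assignment falsifies at least `n / (c log₂ m)`
clauses), with the following property. Let `P ω` be a randomized scheme of mixed-integer convex
programming relaxations for the formulas with `n` variables, where `ω` has the probability `p ω`,
with constraints of dimension `D`, where `D ^ c ≤ m`, and with
`2 ^ k * (s + r + 1) < 2 ^ ((1 - ε) n)`. Then the probability that the scheme is correct at a random
assignment plus the probability that it refutes a random formula of the list with the error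
`2 ^ (-n / c)` is less than `1 + 2 ^ (-n / c)`.

Conversely, for all `k`, `l` and `N ≤ 2 ^ l` there is a scheme for the formulas with `k + l`
variables, with `k` binary variables, `N` linear inequalities and one more for every clause, which
is correct at a fraction `N / 2 ^ l` of the assignments and refutes every unsatisfiable formula
`F` with every error `δ < 1 / |F|`. -/
theorem result :
    (∀ ε : ℝ, 0 < ε → ∃ c : ℕ, 1 ≤ c ∧ ∀ n m : ℕ, c ≤ n → n ^ c ≤ m → m ^ c ≤ 2 ^ n →
      ∃ (M : ℕ) (F : Fin M → Finset (Clause n)), 0 < M ∧
        (∀ i, (F i).card ≤ m ∧ (∀ C ∈ F i, 2 ^ C.card ≤ m) ∧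
          ∀ x, n ≤ c * Nat.log 2 m * LX.falsified (F i) x) ∧
        ∀ D : ℕ, D ^ c ≤ m → ∀ (Ω : Type) [Fintype Ω] (p : Ω → ℝ), (∀ ω, 0 ≤ p ω) →
          ∑ ω, p ω = 1 → ∀ (k s r : Ω → ℕ) (P : ∀ ω, Scheme n (k ω) (s ω) (r ω) D),
          (∀ ω, (2 : ℝ) ^ k ω * (s ω + r ω + 1) < (2 : ℝ) ^ ((1 - ε) * n)) →
          ∑ ω, p ω * ((P ω).correctRate + (P ω).refutedRate F ((2 : ℝ) ^ (-((n : ℝ) / c))))
            < 1 + (2 : ℝ) ^ (-((n : ℝ) / c))) ∧
    ∀ k l N : ℕ, N ≤ 2 ^ l → ∃ P : Scheme (k + l) k N 1 1,
      P.correctRate = (N : ℝ) / 2 ^ l ∧
      ∀ F : Finset (Clause (k + l)), (∀ x, ∃ C ∈ F, FalseAt C x) →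
        ∀ δ : ℝ, 0 ≤ δ → F.card * δ < 1 → P.Refutes F δ :=
  ⟨fun ε hε => rx_main ε hε, rx_upper⟩

end Pool.Agent.Results.MP_0e79d0_lc.RandomizedConvexRelaxations
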